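import Pool.Agent.H92Rev.Main

set_option autoImplicit false

namespace Pool.Agent.Results.MP_63f2dd_al.AllReversibles

open Pool.Agent.H92Rev

/-- Sanity: the product of the group `FG n` is formal composition. -/
theorem mul_is_composition {n : ℕ} (F G : FG n) (i : Fin n) :
    (F * G).toFun i = MvPowerSeries.subst G.toFun (F.toFun i) := rfl

/-- Sanity: the unit of the group `FG n` is the identity map. -/
theorem one_is_identity {n : ℕ} (i : Fin n) : (1 : FG n).toFun i = MvPowerSeries.X i := rfl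

/-- Characterisation of all reversible elements of the group `FG 2` of formally invertible formal
maps in two variables. The following are equivalent for `f`.

1. `f` is reversible.
2. `f` is conjugate to a map reversed by a diagonal linear map whose entries are roots of unity of
   order a power of two.
3. `f` is conjugate to a member `h ∘ diag(ε₁ζ₁, ε₂ζ₂) ∘ h⁻¹ ∘ diag(ζ₁, ζ₂)⁻¹` of the following
   explicit family: the `ζ`'s are roots of unity of order a power of two, the `ε`'s are signs, and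
   `h` is any formally invertible map whose `i`-th component contains only monomials
   `x^a y^b` with `ζ₁^(2a) ζ₂^(2b) = ζᵢ^2`.
4. `f = σ ∘ τ⁻¹` with `σ` and `τ` of finite order (a power of two) and `σ² = τ²`.
5. for every `k` the `k`-jet of `f` is reversible in the group of `k`-jets. -/
theorem result (f : FG 2) : List.TFAE [
    ∃ h : FG 2, h * f * h⁻¹ = f⁻¹,
    ∃ (N : ℕ) (ζ : Fin 2 → ℂˣ) (φ : FG 2), (∀ i, ζ i ^ (2 ^ N) = 1) ∧
      diagMap ζ * (φ * f * φ⁻¹) * (diagMap ζ)⁻¹ = (φ * f * φ⁻¹)⁻¹,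
    ∃ (N : ℕ) (ζ ε : Fin 2 → ℂˣ) (h φ : FG 2), (∀ i, ζ i ^ (2 ^ N) = 1) ∧ (∀ i, ε i ^ 2 = 1) ∧
      (∀ (i : Fin 2) (m : Fin 2 →₀ ℕ), ζ 0 ^ (2 * m 0) * ζ 1 ^ (2 * m 1) ≠ ζ i ^ 2 →
        MvPowerSeries.coeff m (h.toFun i) = 0) ∧
      f = φ * (h * diagMap (ε * ζ) * h⁻¹ * (diagMap ζ)⁻¹) * φ⁻¹,
    ∃ (N : ℕ) (σ τ : FG 2), σ ^ (2 ^ N) = 1 ∧ τ ^ (2 ^ N) = 1 ∧ σ ^ 2 = τ ^ 2 ∧ f = σ * τ⁻¹,
    ∀ k : ℕ, ∃ h : FG 2, ∀ (i : Fin 2) (m : Fin 2 →₀ ℕ), m 0 + m 1 ≤ k →
      MvPowerSeries.coeff m ((h * f * h⁻¹).toFun i) = MvPowerSeries.coeff m ((f⁻¹).toFun i)] := by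
  have hcond : ∀ (h : FG 2) (ζ : Fin 2 → ℂˣ), h * diagMap (ζ ^ 2) = diagMap (ζ ^ 2) * h ↔
      (∀ (i : Fin 2) (m : Fin 2 →₀ ℕ), ζ 0 ^ (2 * m 0) * ζ 1 ^ (2 * m 1) ≠ ζ i ^ 2 →
        MvPowerSeries.coeff m (h.toFun i) = 0) := by
    intro h ζ
    rw [commute_diag_iff]
    apply forall_congr'
    intro i
    apply forall_congr'
    intro m
    rw [Fin.prod_univ_two]
    simp only [Pi.pow_apply, ← pow_mul]
  tfae_have 1 → 2 := fun h => exists_diag_reverser f h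
  tfae_have 2 → 3 := by
    rintro ⟨N, ζ, φ, hζ, hrev⟩
    obtain ⟨ε, h, hε, hcomm, hg⟩ := param_of_diag (φ * f * φ⁻¹) N ζ hζ hrev
    refine ⟨N, ζ, ε, h, φ⁻¹, hζ, hε, (hcond h ζ).1 hcomm, ?_⟩
    rw [← hg]
    group
  tfae_have 3 → 4 := by
    rintro ⟨N, ζ, ε, h, φ, hζ, hε, hh, hf⟩
    have hcomm := (hcond h ζ).2 hh
    have hζ1 : ζ ^ (2 ^ N) = 1 := by funext i; exact hζ i
    have hε1 : ε ^ 2 = 1 := by funext i; exact hε i
    have hpow : ∀ (a b : FG 2) (k : ℕ), (a * b * a⁻¹) ^ k = a * b ^ k * a⁻¹ := by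
      intro a b k
      exact conj_pow
    refine ⟨N + 1, φ * (h * diagMap (ε * ζ) * h⁻¹) * φ⁻¹, φ * diagMap ζ * φ⁻¹, ?_, ?_, ?_, ?_⟩
    · have hεζ : (ε * ζ) ^ (2 ^ (N + 1)) = 1 := by
        rw [mul_pow, pow_succ, pow_mul ζ, hζ1, one_pow, mul_one, mul_comm (2 ^ N) 2, pow_mul, hε1,
          one_pow]
      rw [hpow, hpow, diagMap_pow, hεζ, diagMap_one]
      group
    · rw [hpow, diagMap_pow, pow_succ, pow_mul, hζ1, one_pow, diagMap_one]
      group
    · rw [hpow, hpow, hpow, diagMap_pow, diagMap_pow, mul_pow, hε1, one_mul, hcomm]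
      group
    · rw [hf]
      group
  tfae_have 4 → 1 := by
    rintro ⟨N, σ, τ, -, -, h, rfl⟩
    exact reversible_of_squares σ τ h
  tfae_have 1 → 5 := by
    rintro ⟨h, hh⟩ k
    exact ⟨h, fun i m _ => by rw [hh]⟩
  tfae_have 5 → 1 := by
    intro hk
    have hjet : ∀ k : ℕ, ∃ h : FG 2, JetEq k (f * h * f) h := by
      intro k
      obtain ⟨h, hh⟩ := hk k
      have h0 : JetEq k (h * f * h⁻¹) (f⁻¹) := by
        intro i m hm
        rw [map_sub, hh i m, sub_self]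
        have : m.degree = m 0 + m 1 := by
          rw [Finsupp.degree_eq_sum, Fin.sum_univ_two]
        omega
      have h1 := (h0.mul_left f).mul_right h
      refine ⟨h, ?_⟩
      have e1 : f * (h * f * h⁻¹) * h = f * h * f := by group
      have e2 : f * f⁻¹ * h = h := by group
      rw [e1, e2] at h1
      exact h1
    obtain ⟨h, hh⟩ := jets_suffice f hjet
    refine ⟨h, ?_⟩
    calc h * f * h⁻¹ = f⁻¹ * (f * h * f) * h⁻¹ := by group
      _ = f⁻¹ * h * h⁻¹ := by rw [hh]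
      _ = f⁻¹ := by group
  tfae_finish

end Pool.Agent.Results.MP_63f2dd_al.AllReversibles
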